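import Pool.Agent.Y298.LC.Stm

/-!
# Vitali's theorem for a family indexed by `σ → 0+`
-/

set_option autoImplicit false

open Set Filter Metric MeasureTheory Topology Complex Bornology

namespace Pool.Agent.Y665.LC

open scoped Nat

/-- Taylor coefficient -/
noncomputable def tc (f : ℂ → ℂ) (c₀ : ℂ) (n : ℕ) : ℂ := (n ! : ℂ)⁻¹ * iteratedDeriv n f c₀

lemma tc_hasSum {f : ℂ → ℂ} {c₀ : ℂ} {r : ℝ} (hf : DifferentiableOn ℂ f (ball c₀ r)) {z : ℂ}
    (hz : z ∈ ball c₀ r) : HasSum (fun n => tc f c₀ n * (z - c₀) ^ n) (f z) := by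
  have h := Complex.hasSum_taylorSeries_on_ball hf hz
  have e : (fun n : ℕ => (n ! : ℂ)⁻¹ • (z - c₀) ^ n • iteratedDeriv n f c₀) =
      fun n => tc f c₀ n * (z - c₀) ^ n := by
    funext n
    unfold tc
    simp only [smul_eq_mul]
    ring
  rwa [e] at h

lemma tc_bound {f : ℂ → ℂ} {c₀ : ℂ} {r M R : ℝ} (hf : DifferentiableOn ℂ f (ball c₀ r))
    (hM : ∀ c ∈ ball c₀ r, ‖f c‖ ≤ M) (hR : 0 < R) (hRr : R < r) (n : ℕ) :
    ‖tc f c₀ n‖ ≤ M / R ^ n := by
  have hd : DiffContOnCl ℂ f (ball c₀ R) :=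
    (hf.mono (closedBall_subset_ball hRr)).diffContOnCl_ball le_rfl
  have h := Complex.norm_iteratedDeriv_le_of_forall_mem_sphere_norm_le n hR hd
    (fun z hz => hM z (closedBall_subset_ball hRr (sphere_subset_closedBall hz)))
  have hn : (0:ℝ) < (n ! : ℝ) := by exact_mod_cast Nat.factorial_pos n
  unfold tc
  rw [norm_mul, norm_inv, Complex.norm_natCast, inv_mul_le_iff₀ hn]
  refine h.trans (le_of_eq ?_)
  ring

/-- a function which is a uniform limit of convergent functions converges -/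
lemma exists_lim {l : Filter ℝ} [NeBot l] {a : ℝ → ℂ}
    (h : ∀ ε : ℝ, 0 < ε → ∃ (G : ℝ → ℂ) (g : ℂ), Tendsto G l (𝓝 g) ∧ ∀ᶠ σ in l, ‖a σ - G σ‖ ≤ ε) :
    ∃ L, Tendsto a l (𝓝 L) := by
  rw [← cauchy_map_iff_exists_tendsto, Metric.cauchy_iff]
  refine ⟨inferInstance, fun ε hε => ?_⟩
  obtain ⟨G, g, hG, hev⟩ := h (ε / 5) (by positivity)
  have h1 : ∀ᶠ σ in l, dist (G σ) g < ε / 5 := (Metric.tendsto_nhds.1 hG) _ (by positivity)
  refine ⟨a '' {σ | dist (G σ) g < ε / 5 ∧ ‖a σ - G σ‖ ≤ ε / 5}, ?_, ?_⟩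
  · exact image_mem_map (h1.and hev)
  · rintro _ ⟨σ, hσ, rfl⟩ _ ⟨σ', hσ', rfl⟩
    have h2 : dist (a σ) (G σ) ≤ ε / 5 := by rw [dist_eq_norm]; exact hσ.2
    have h3 : dist (a σ') (G σ') ≤ ε / 5 := by rw [dist_eq_norm]; exact hσ'.2
    have h4 := dist_triangle (a σ) (G σ) (a σ')
    have h5 := dist_triangle (G σ) g (a σ')
    have h6 := dist_triangle g (G σ') (a σ')
    rw [dist_comm g (G σ'), dist_comm (G σ') (a σ')] at h6
    have h7 := hσ.1
    have h8 := hσ'.1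
    linarith

/-- the tail of the Taylor series -/
lemma tail_bound {f : ℂ → ℂ} {c₀ : ℂ} {r M : ℝ} (hr : 0 < r)
    (hf : DifferentiableOn ℂ f (ball c₀ r))
    (hM : ∀ c ∈ ball c₀ r, ‖f c‖ ≤ M) (n : ℕ) {z : ℂ} (hz0 : z ≠ c₀) (hz : ‖z - c₀‖ ≤ r / 4) :
    ‖tc f c₀ n - (f z - ∑ k ∈ Finset.range n, tc f c₀ k * (z - c₀) ^ k) / (z - c₀) ^ n‖ ≤
      2 * M / (r / 2) ^ (n + 1) * ‖z - c₀‖ := by
  have hw : z - c₀ ≠ 0 := sub_ne_zero.2 hz0
  have hw0 : 0 < ‖z - c₀‖ := norm_pos_iff.2 hw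
  have hzb : z ∈ ball c₀ r := by
    rw [mem_ball, dist_eq_norm]
    linarith
  have hM0 : 0 ≤ M := (norm_nonneg _).trans (hM z hzb)
  have hs := tc_hasSum hf hzb
  have h1 := hs.summable.sum_add_tsum_nat_add (n + 1)
  rw [hs.tsum_eq, Finset.sum_range_succ] at h1
  have h2 : ‖∑' k, tc f c₀ (k + (n + 1)) * (z - c₀) ^ (k + (n + 1))‖ ≤
      2 * (M / (r / 2) ^ (n + 1) * ‖z - c₀‖ ^ (n + 1)) := by
    have hg : HasSum (fun k : ℕ => (M / (r / 2) ^ (n + 1) * ‖z - c₀‖ ^ (n + 1)) * (1 / 2 : ℝ) ^ k)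
        ((M / (r / 2) ^ (n + 1) * ‖z - c₀‖ ^ (n + 1)) * 2) := by
      refine HasSum.mul_left _ ?_
      have := hasSum_geometric_of_lt_one (r := (1 / 2 : ℝ)) (by norm_num) (by norm_num)
      norm_num at this
      norm_num
      exact this
    rw [mul_comm]
    refine tsum_of_norm_bounded hg fun k => ?_
    rw [norm_mul, norm_pow]
    have h3 := tc_bound hf hM (R := r / 2) (by linarith) (by linarith) (k + (n + 1))
    have h4 : ‖z - c₀‖ ^ k ≤ (r / 4) ^ k := pow_le_pow_left₀ hw0.le hz k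
    calc ‖tc f c₀ (k + (n + 1))‖ * ‖z - c₀‖ ^ (k + (n + 1)) ≤
          M / (r / 2) ^ (k + (n + 1)) * ((r / 4) ^ k * ‖z - c₀‖ ^ (n + 1)) := by
          rw [pow_add ‖z - c₀‖]
          gcongr
      _ = _ := by
          have e : (r / 4) ^ k = (r / 2) ^ k * (1 / 2) ^ k := by
            rw [← mul_pow]
            congr 1
            ring
          rw [e, pow_add (r / 2)]
          field_simp
  have h5 : tc f c₀ n - (f z - ∑ k ∈ Finset.range n, tc f c₀ k * (z - c₀) ^ k) / (z - c₀) ^ n =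
      -(∑' k, tc f c₀ (k + (n + 1)) * (z - c₀) ^ (k + (n + 1))) / (z - c₀) ^ n := by
    rw [← h1]
    field_simp
    ring
  rw [h5, norm_div, norm_neg, norm_pow, div_le_iff₀ (by positivity)]
  refine h2.trans (le_of_eq ?_)
  rw [pow_succ]
  ring

theorem vit' (c₀ : ℂ) (r M : ℝ) (F : ℝ → ℂ → ℂ) (T : Set ℂ) (hr : 0 < r)
    (hF : ∀ σ ∈ Ioc (0 : ℝ) 1, DifferentiableOn ℂ (F σ) (ball c₀ r))
    (hM : ∀ σ ∈ Ioc (0 : ℝ) 1, ∀ c ∈ ball c₀ r, ‖F σ c‖ ≤ M) (hT : T ⊆ ball c₀ r)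
    (hacc : AccPt c₀ (𝓟 T))
    (hlim : ∀ c ∈ T, ∃ p, Tendsto (fun σ => F σ c) (𝓝[>] 0) (𝓝 p)) :
    ∃ y : ℂ → ℂ, DifferentiableOn ℂ y (ball c₀ r) ∧
      ∀ ρ, ρ < r → TendstoUniformlyOn F y (𝓝[>] 0) (closedBall c₀ ρ) := by
  have hev : ∀ᶠ σ : ℝ in 𝓝[>] 0, σ ∈ Ioc (0:ℝ) 1 := Ioc_mem_nhdsGT one_pos
  have hM0 : 0 ≤ M := (norm_nonneg _).trans (hM 1 ⟨one_pos, le_rfl⟩ c₀ (mem_ball_self hr))
  -- the coefficients converge
  have hco : ∀ n : ℕ, ∃ L, Tendsto (fun σ => tc (F σ) c₀ n) (𝓝[>] 0) (𝓝 L) := by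
    intro n
    induction n using Nat.strong_induction_on with
    | _ n ih =>
      choose! L hL using ih
      apply exists_lim
      intro ε hε
      set C := 2 * M / (r / 2) ^ (n + 1) with hC
      have hC0 : 0 ≤ C := by rw [hC]; positivity
      obtain ⟨c, ⟨hcU, hcT⟩, hcne⟩ := (accPt_iff_nhds.1 hacc)
        (ball c₀ (min (r / 4) (ε / (C + 1)))) (ball_mem_nhds _ (by positivity))
      rw [mem_ball, dist_eq_norm, lt_min_iff] at hcU
      obtain ⟨p, hp⟩ := hlim c hcT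
      refine ⟨fun σ => (F σ c - ∑ k ∈ Finset.range n, tc (F σ) c₀ k * (c - c₀) ^ k) /
        (c - c₀) ^ n, (p - ∑ k ∈ Finset.range n, L k * (c - c₀) ^ k) / (c - c₀) ^ n, ?_, ?_⟩
      · refine (hp.sub ?_).div_const _
        exact tendsto_finsetSum _ fun k hk => (hL k (Finset.mem_range.1 hk)).mul_const _
      · filter_upwards [hev] with σ hσ
        refine (tail_bound hr (hF σ hσ) (hM σ hσ) n hcne hcU.1.le).trans ?_
        rw [← hC]
        have h1 : ‖c - c₀‖ * (C + 1) < ε := (lt_div_iff₀ (by positivity)).1 hcU.2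
        have h2 := norm_nonneg (c - c₀)
        nlinarith
  choose L hL using hco
  have hLb : ∀ R : ℝ, 0 < R → R < r → ∀ n, ‖L n‖ ≤ M / R ^ n := by
    intro R hR hRr n
    refine le_of_tendsto (hL n).norm ?_
    filter_upwards [hev] with σ hσ
    exact tc_bound (hF σ hσ) (hM σ hσ) hR hRr n
  -- uniform convergence
  have hunif : ∀ ρ, ρ < r →
      TendstoUniformlyOn F (fun c => ∑' n, L n * (c - c₀) ^ n) (𝓝[>] 0) (closedBall c₀ ρ) := by
    intro ρ hρ
    rcases lt_or_ge ρ 0 with hneg | hρ0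
    · rw [closedBall_eq_empty.2 hneg]
      exact tendstoUniformlyOn_empty
    obtain ⟨R, hR⟩ : ∃ R : ℝ, R = (ρ + r) / 2 := ⟨_, rfl⟩
    have hR0 : 0 < R := by rw [hR]; linarith
    have hRr : R < r := by rw [hR]; linarith
    have hρR : ρ < R := by rw [hR]; linarith
    have hq0 : 0 ≤ ρ / R := by positivity
    have hq1 : ρ / R < 1 := (div_lt_one hR0).2 hρR
    have hgs : Summable (fun n : ℕ => 2 * M * (ρ / R) ^ n) :=
      (summable_geometric_of_lt_one hq0 hq1).mul_left _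
    have hbd : ∀ σ ∈ Ioc (0:ℝ) 1, ∀ n, ‖tc (F σ) c₀ n - L n‖ * ρ ^ n ≤ 2 * M * (ρ / R) ^ n := by
      intro σ hσ n
      have h1 := tc_bound (hF σ hσ) (hM σ hσ) hR0 hRr n
      have h2 := hLb R hR0 hRr n
      have h3 : ‖tc (F σ) c₀ n - L n‖ ≤ 2 * (M / R ^ n) := by
        refine (norm_sub_le _ _).trans ?_
        linarith
      refine (mul_le_mul_of_nonneg_right h3 (by positivity)).trans (le_of_eq ?_)
      rw [div_pow]
      ring
    have hE : Tendsto (fun σ => ∑' n, ‖tc (F σ) c₀ n - L n‖ * ρ ^ n) (𝓝[>] 0)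
        (𝓝 (∑' _n : ℕ, (0:ℝ))) := by
      refine tendsto_tsum_of_dominated_convergence hgs (fun n => ?_) ?_
      · have h1 : Tendsto (fun σ => ‖tc (F σ) c₀ n - L n‖ * ρ ^ n) (𝓝[>] 0)
            (𝓝 (‖L n - L n‖ * ρ ^ n)) := ((hL n).sub_const (L n)).norm.mul_const _
        rwa [sub_self, norm_zero, zero_mul] at h1
      · filter_upwards [hev] with σ hσ n
        rw [Real.norm_of_nonneg (by positivity)]
        exact hbd σ hσ n
    rw [tsum_zero] at hE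
    rw [Metric.tendstoUniformlyOn_iff]
    intro ε hε
    filter_upwards [hev, (Metric.tendsto_nhds.1 hE) ε hε] with σ hσ hσ2 c hc
    rw [dist_zero_right, Real.norm_of_nonneg (tsum_nonneg fun n => by positivity)] at hσ2
    refine lt_of_le_of_lt ?_ hσ2
    rw [mem_closedBall, dist_eq_norm] at hc
    have hcb : c ∈ ball c₀ r := by
      rw [mem_ball, dist_eq_norm]
      linarith
    have hs1 := tc_hasSum (hF σ hσ) hcb
    have hs2 : Summable (fun n => L n * (c - c₀) ^ n) := by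
      refine Summable.of_norm_bounded (g := fun n : ℕ => M * (ρ / R) ^ n)
        ((summable_geometric_of_lt_one hq0 hq1).mul_left _) fun n => ?_
      rw [norm_mul, norm_pow]
      have h2 := hLb R hR0 hRr n
      have h3 : ‖c - c₀‖ ^ n ≤ ρ ^ n := pow_le_pow_left₀ (norm_nonneg _) hc n
      calc ‖L n‖ * ‖c - c₀‖ ^ n ≤ M / R ^ n * ρ ^ n := by gcongr
        _ = _ := by rw [div_pow]; ring
    have h4 := hs1.sub hs2.hasSum
    rw [dist_comm, dist_eq_norm]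
    have hsn : Summable (fun n => ‖tc (F σ) c₀ n - L n‖ * ρ ^ n) :=
      Summable.of_nonneg_of_le (fun n => by positivity) (hbd σ hσ) hgs
    rw [← h4.tsum_eq]
    refine tsum_of_norm_bounded hsn.hasSum fun n => ?_
    rw [← sub_mul, norm_mul, norm_pow]
    have h3 : ‖c - c₀‖ ^ n ≤ ρ ^ n := pow_le_pow_left₀ (norm_nonneg _) hc n
    gcongr
  have hloc : TendstoLocallyUniformlyOn F (fun c => ∑' n, L n * (c - c₀) ^ n) (𝓝[>] 0)
      (ball c₀ r) := by
    rw [tendstoLocallyUniformlyOn_iff_forall_isCompact isOpen_ball]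
    intro K hK hKc
    rcases K.eq_empty_or_nonempty with rfl | hne
    · exact tendstoUniformlyOn_empty
    obtain ⟨z, hzK, hz⟩ := hKc.exists_isMaxOn hne
      (continuous_id.dist (continuous_const (y := c₀))).continuousOn
    refine (hunif (dist z c₀) (hK hzK)).mono fun w hw => ?_
    exact hz hw
  exact ⟨fun c => ∑' n, L n * (c - c₀) ^ n,
    hloc.differentiableOn (hev.mono fun σ hσ => hF σ hσ) isOpen_ball, hunif⟩

theorem vit : Pool.Agent.Y298.LC.S_VIT := by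
  intro c₀ r M F T hr hF hM hT hacc hlim
  exact vit' c₀ r M F T hr hF hM hT hacc hlim

end Pool.Agent.Y665.LC
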